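import Pool.Agent.Q267.DegForcing

/-!
# An infinite minimal degree-sequence-forcing set
-/

namespace Pool.Agent.Results.MP_b4d381_co.InfiniteMinimal

open Pool.Agent.Q267.DegForcing

/-- `H` is `𝓕`-free. -/
def IsFree (𝓕 : Set Gr) (H : Gr) : Prop := ∀ X ∈ 𝓕, ¬ Induces H X

/-- `𝓕` is a (nonempty) degree-sequence-forcing set. -/
def DSF (𝓕 : Set Gr) : Prop :=
  𝓕.Nonempty ∧ ∀ H H' : Gr, degs H.2 = degs H'.2 → IsFree 𝓕 H → IsFree 𝓕 H'

/-- A set of graphs up to isomorphism: an isomorphism-closed set of graphs. -/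
def IsoClosed (𝓕 : Set Gr) : Prop :=
  ∀ X Y : Gr, Nonempty (X.2 ≃g Y.2) → X ∈ 𝓕 → Y ∈ 𝓕

/-- `𝓕` is a minimal DSF set: no nonempty proper subset of it (up to isomorphism) is DSF. -/
def MinimalDSF (𝓕 : Set Gr) : Prop :=
  IsoClosed 𝓕 ∧ DSF 𝓕 ∧ ∀ 𝓖 : Set Gr, 𝓖 ⊆ 𝓕 → IsoClosed 𝓖 → DSF 𝓖 → 𝓖 = 𝓕

theorem size_iso {X Y : Gr} (h : Nonempty (X.2 ≃g Y.2)) : X.1 = Y.1 := by
  obtain ⟨e⟩ := h
  have := Fintype.card_congr e.toEquiv
  rwa [Fintype.card_fin, Fintype.card_fin] at this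

theorem size_degs {X Y : Gr} (h : degs X.2 = degs Y.2) : X.1 = Y.1 := by
  have := congrArg Multiset.card h
  unfold degs at this
  rw [Multiset.card_map, Multiset.card_map] at this
  change (Finset.univ : Finset (Fin X.1)).card = (Finset.univ : Finset (Fin Y.1)).card at this
  rwa [Finset.card_univ, Finset.card_univ, Fintype.card_fin, Fintype.card_fin] at this

theorem size_le {X Y : Gr} (h : Induces X Y) : Y.1 ≤ X.1 := by
  obtain ⟨f⟩ := h
  have := Fintype.card_le_of_injective f f.injective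
  rwa [Fintype.card_fin, Fintype.card_fin] at this

theorem iso_of_size {X Y : Gr} (h : Induces X Y) (hs : X.1 = Y.1) :
    Nonempty (Y.2 ≃g X.2) := by
  obtain ⟨f⟩ := h
  have hb : Function.Bijective f := by
    rw [Fintype.bijective_iff_injective_and_card]
    refine ⟨f.injective, ?_⟩
    rw [Fintype.card_fin, Fintype.card_fin, hs]
  exact ⟨RelIso.ofSurjective f hb.2⟩

theorem induces_iso {X Y : Gr} (h : Nonempty (X.2 ≃g Y.2)) : Induces Y X := by
  obtain ⟨e⟩ := h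
  exact ⟨e.toEmbedding⟩

theorem iso_symm {X Y : Gr} (h : Nonempty (X.2 ≃g Y.2)) : Nonempty (Y.2 ≃g X.2) := by
  obtain ⟨e⟩ := h
  exact ⟨e.symm⟩

theorem inP_degs {G X Y : Gr} (h : degs X.2 = degs Y.2) (hX : InP G X) : InP G Y := by
  obtain ⟨H', h1, h2⟩ := hX
  exact ⟨H', h1.trans h, h2⟩

/-- `D(G)` is a minimal DSF set. -/
theorem minimal (G : Gr) : MinimalDSF {H | InD G H} := by
  have hGP : InP G G := ⟨G, rfl, Induces.refl G⟩
  refine ⟨?_, ⟨?_, ?_⟩, ?_⟩
  · rintro X Y hXY ⟨h1, h2⟩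
    refine ⟨inP_mono (induces_iso hXY) h1, ?_⟩
    intro H₀ h3 h4
    exact h2 H₀ ((induces_iso (iso_symm hXY)).trans h3) (by rw [size_iso hXY]; exact h4)
  · obtain ⟨H₀, -, h⟩ := exists_inD G.1 G rfl hGP
    exact ⟨H₀, h⟩
  · intro H H' hd hfree X hX hind
    have h1 : InP G H' := inP_mono hind hX.1
    have h2 : InP G H := inP_degs hd.symm h1
    obtain ⟨H₀, h3, h4⟩ := exists_inD H.1 H rfl h2
    exact hfree H₀ h4 h3
  · rintro 𝓖 hsub hiso ⟨⟨X₀, hX₀⟩, hdsf⟩
    -- first `G ∈ 𝓖`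
    have hG : ∀ n, ∀ X ∈ 𝓖, X.1 = n → G ∈ 𝓖 := by
      intro n
      induction n using Nat.strong_induction_on with
      | _ n ih =>
        intro X hX hn
        obtain ⟨X', h1, h2⟩ := (hsub hX).1
        have h3 : ∃ Y ∈ 𝓖, Induces X' Y := by
          by_contra hc
          have hfree : IsFree 𝓖 X' := fun Y hY hI => hc ⟨Y, hY, hI⟩
          exact hdsf X' X h1 hfree X hX (Induces.refl X)
        obtain ⟨Y, hY, hI⟩ := h3
        have hs := size_le hI
        have hs' := size_degs h1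
        rcases Nat.lt_or_ge Y.1 X.1 with hlt | hge
        · exact ih Y.1 (by omega) Y hY rfl
        · have hiso1 := iso_of_size hI (by omega)
          have hX' : X' ∈ 𝓖 := hiso Y X' hiso1 hY
          have hD : InD G X' := hsub hX'
          rcases Nat.lt_or_ge G.1 X'.1 with hlt | hge
          · exact absurd hGP (hD.2 G h2 hlt)
          · have hle := size_le h2
            exact hiso X' G (iso_symm (iso_of_size h2 (by omega))) hX'
    have hG' : G ∈ 𝓖 := hG X₀.1 X₀ hX₀ rfl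
    apply Set.Subset.antisymm hsub
    intro H hH
    obtain ⟨H', h1, h2⟩ := hH.1
    have h3 : ∃ Y ∈ 𝓖, Induces H Y := by
      by_contra hc
      have hfree : IsFree 𝓖 H := fun Y hY hI => hc ⟨Y, hY, hI⟩
      exact hdsf H H' h1.symm hfree G hG' h2
    obtain ⟨Y, hY, hI⟩ := h3
    have hle := size_le hI
    rcases Nat.lt_or_ge Y.1 H.1 with hlt | hge
    · exact absurd (hsub hY).1 (hH.2 Y hI hlt)
    · exact hiso Y H (iso_of_size hI (by omega)) hY

/-- There is a minimal DSF set containing infinitely many pairwise non-isomorphic graphs. -/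
theorem result : ∃ 𝓕 : Set Gr, MinimalDSF 𝓕 ∧
    ∃ F : ℕ → Gr, (∀ i, F i ∈ 𝓕) ∧ ∀ i j, i ≠ j → IsEmpty ((F i).2 ≃g (F j).2) := by
  obtain ⟨F, h1, h2⟩ := infinite_family
  refine ⟨{H | InD (toGr G0) H}, minimal _, F, h1, ?_⟩
  intro i j hij
  constructor
  intro e
  have hc : (F i).1 = (F j).1 := size_iso ⟨e⟩
  rcases Nat.lt_or_gt_of_ne hij with h | h
  · have := h2 i j h
    omega
  · have := h2 j i h
    omega

end Pool.Agent.Results.MP_b4d381_co.InfiniteMinimal
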